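import Pool.Agent.Helper95.LN.Stmts
import Pool.Agent.Helper14.PW.POE
import Pool.Agent.Helper20.PW.PAN
import Pool.Agent.Helper49.PN.ATTL

/-!
# Row VID: the virial identity for the Coulomb energy
-/

set_option autoImplicit false

namespace Pool.Agent.Helper51.LN

open MeasureTheory Filter Topology Pool.Agent.Helper95.PW Pool.Agent.Helper95.LN
open Pool.Agent.Helper14.PW Pool.Agent.Helper49.PN

theorem vid_bd {g : R3 → ℝ} (hg : ContDiff ℝ (⊤ : ℕ∞) g) (hc : HasCompactSupport g) :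
    ∃ B : ℝ, 0 ≤ B ∧ ∀ (i : Fin 3) (x y : R3), |pd i g x - pd i g y| ≤ B * nr (x - y) := by
  have h : ∀ i j : Fin 3, ∃ C, ∀ y, ‖pd j (pd i g) y‖ ≤ C := by
    intro i j
    refine (poe_pd_cd (poe_pd_cd hg i) j).continuous.bounded_above_of_compact_support ?_
    have h1 : HasCompactSupport (pd i g) := by
      unfold pd
      exact hc.fderiv_apply (𝕜 := ℝ) _
    unfold pd at h1 ⊢
    exact h1.fderiv_apply (𝕜 := ℝ) _
  choose C hC using h
  have hM : ∀ i j : Fin 3, |C i j| ≤ ∑ i, ∑ j, |C i j| := by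
    intro i j
    calc |C i j| ≤ ∑ j, |C i j| :=
          Finset.single_le_sum (f := fun j => |C i j|) (fun j _ => abs_nonneg _)
            (Finset.mem_univ j)
      _ ≤ _ := Finset.single_le_sum (f := fun i => ∑ j, |C i j|)
            (fun i _ => Finset.sum_nonneg fun j _ => abs_nonneg _) (Finset.mem_univ i)
  have hM0 : 0 ≤ ∑ i, ∑ j, |C i j| :=
    Finset.sum_nonneg fun i _ => Finset.sum_nonneg fun j _ => abs_nonneg _
  refine ⟨3 * ∑ i, ∑ j, |C i j|, by positivity, fun i x y => ?_⟩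
  exact poe_lip ((poe_pd_cd hg i).differentiable (by simp)) hM0
    (fun j z => ((hC i j z).trans (le_abs_self _)).trans (hM i j)) x y

/-- the pair term -/
noncomputable def vidS {n : ℕ} (g : R3 → ℝ) (k l : Fin n) (x : Cf n) : ℝ :=
  (∑ m, (pd m g (x k) - pd m g (x l)) * (x k m - x l m)) / nr (x k - x l) ^ 3

theorem vid_num {n : ℕ} {g : R3 → ℝ} {B : ℝ} (hB : 0 ≤ B)
    (h : ∀ (i : Fin 3) (x y : R3), |pd i g x - pd i g y| ≤ B * nr (x - y)) (k l : Fin n)
    (x : Cf n) :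
    |∑ m, (pd m g (x k) - pd m g (x l)) * (x k m - x l m)| ≤ 3 * B * nr (x k - x l) ^ 2 := by
  refine (Finset.abs_sum_le_sum_abs _ _).trans ?_
  have h1 : ∀ m ∈ (Finset.univ : Finset (Fin 3)),
      |(pd m g (x k) - pd m g (x l)) * (x k m - x l m)| ≤ B * nr (x k - x l) ^ 2 := by
    intro m _
    rw [abs_mul]
    have a1 := h m (x k) (x l)
    have a2 : |x k m - x l m| ≤ nr (x k - x l) := poe_abs_le_nr (x k - x l) m
    calc |pd m g (x k) - pd m g (x l)| * |x k m - x l m|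
        ≤ (B * nr (x k - x l)) * nr (x k - x l) :=
          mul_le_mul a1 a2 (abs_nonneg _) (mul_nonneg hB (poe_nr_nonneg _))
      _ = _ := by ring
  refine (Finset.sum_le_sum h1).trans (le_of_eq ?_)
  simp
  ring

theorem vid_Sm {n : ℕ} {g : R3 → ℝ} (hg : ContDiff ℝ (⊤ : ℕ∞) g) (k l : Fin n) :
    Measurable (vidS g k l) := by
  have h1 : Continuous (fun x : Cf n =>
      ∑ m, (pd m g (x k) - pd m g (x l)) * (x k m - x l m)) := by
    refine continuous_finsetSum _ fun m _ => ?_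
    exact ((((poe_pdk_cd hg m k).continuous).sub (poe_pdk_cd hg m l).continuous)).mul
      ((poe_cd k m).continuous.sub (poe_cd l m).continuous)
  have h2 : Continuous (fun x : Cf n => nr (x k - x l)) :=
    poe_nr_cont.comp ((continuous_apply k).sub (continuous_apply l))
  exact h1.measurable.div (h2.pow 3).measurable

theorem vid_poeh {n : ℕ} (g : R3 → ℝ) (k l : Fin n) (e : ℝ) (x : Cf n) :
    poeh g k l e x = -(∑ m, (pd m g (x k) - pd m g (x l)) * (x k m - x l m)) *
      poew k l e x ^ 3 := by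
  unfold poeh
  rw [Fin.sum_univ_three]
  ring

theorem vid_pint {n : ℕ} (hI : ST_INT) {g : R3 → ℝ} (hg : ContDiff ℝ (⊤ : ℕ∞) g) {B : ℝ}
    (hB : 0 ≤ B) (h : ∀ (i : Fin 3) (x y : R3), |pd i g x - pd i g y| ≤ B * nr (x - y))
    {k l : Fin n} (hkl : k < l) {v : Cf n → ℝ} (hv : ContDiff ℝ (⊤ : ℕ∞) v)
    (hvc : HasCompactSupport v) : Integrable (fun x => vidS g k l x * v x ^ 2) := by
  have c3 : Continuous (fun x => v x * v x) := hv.continuous.mul hv.continuous
  have J := poe_pi hkl c3 (hI n v v hv hvc hv hvc).2.1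
  refine (J.const_mul (3 * B)).mono' ?_ ?_
  · exact ((vid_Sm hg k l).aestronglyMeasurable).mul (hv.continuous.pow 2).aestronglyMeasurable
  · filter_upwards [poe_null hkl.ne] with x hx
    have hpos : 0 < nr (x k - x l) := lt_of_le_of_ne (poe_nr_nonneg _) (Ne.symm hx)
    have h1 := vid_num hB h k l x
    have h2 : |vidS g k l x| ≤ 3 * B * (1 / nr (x k - x l)) := by
      unfold vidS
      rw [abs_div, abs_of_pos (pow_pos hpos 3), div_le_iff₀ (pow_pos hpos 3)]
      refine h1.trans (le_of_eq ?_)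
      field_simp
    rw [Real.norm_eq_abs, abs_mul, abs_of_nonneg (sq_nonneg (v x))]
    calc |vidS g k l x| * v x ^ 2 ≤ 3 * B * (1 / nr (x k - x l)) * v x ^ 2 :=
          mul_le_mul_of_nonneg_right h2 (sq_nonneg _)
      _ = _ := by ring

theorem vid_pair {n : ℕ} (h1 : ST_IBP) (hI : ST_INT) {g : R3 → ℝ}
    (hg : ContDiff ℝ (⊤ : ℕ∞) g) {B : ℝ}
    (hB : 0 ≤ B) (h : ∀ (i : Fin 3) (x y : R3), |pd i g x - pd i g y| ≤ B * nr (x - y))
    {k l : Fin n} (hkl : k < l) {v : Cf n → ℝ} (hv : ContDiff ℝ (⊤ : ℕ∞) v)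
    (hvc : HasCompactSupport v) :
    ∫ x, 1 / nr (x k - x l) * (Pg g v x * v x) = 1 / 2 * ∫ x, vidS g k l x * v x ^ 2 := by
  have hPAN : ST_PAN := Pool.Agent.Helper20.PW.st_PAN h1
  obtain ⟨hp, hpc⟩ := poe_sm Pool.Agent.Helper2.PW.st_STB hg hv hvc
  have c2 : Continuous (fun x => Pg g v x * v x) := hp.continuous.mul hv.continuous
  have c3 : Continuous (fun x => v x * v x) := hv.continuous.mul hv.continuous
  have J2 := poe_pi hkl c2 (hI n _ _ hp hpc hv hvc).2.1
  have J3 := poe_pi hkl c3 (hI n v v hv hvc hv hvc).2.1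
  have t1 := poe_lim hkl.ne c2 J2
  have t2 : Tendsto (fun m : ℕ => ∫ x, poeh g k l (1 / ((m : ℝ) + 1)) x * v x ^ 2) atTop
      (𝓝 (∫ x, -vidS g k l x * v x ^ 2)) := by
    refine tendsto_integral_of_dominated_convergence
      (fun x => 3 * B * (1 / nr (x k - x l) * (v x * v x))) (fun m => ?_)
      (J3.const_mul (3 * B)) (fun m => ?_) ?_
    · have he : (0 : ℝ) < 1 / ((m : ℝ) + 1) := by positivity
      exact ((poeh_cd hg k l he).continuous.mul (hv.continuous.pow 2)).aestronglyMeasurable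
    · filter_upwards [poe_null hkl.ne] with x hx
      have he : (0 : ℝ) < 1 / ((m : ℝ) + 1) := by positivity
      generalize 1 / ((m : ℝ) + 1) = e at he
      have hpos : 0 < nr (x k - x l) := lt_of_le_of_ne (poe_nr_nonneg _) (Ne.symm hx)
      have hw : 0 < poew k l e x := inv_pos.2 (Real.sqrt_pos.2 (poeq_pos k l he x))
      have hw1 : poew k l e x ≤ 1 / nr (x k - x l) := by
        unfold poew
        rw [one_div (nr (x k - x l))]
        refine inv_anti₀ hpos ?_
        refine Real.le_sqrt_of_sq_le ?_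
        rw [poe_q_eq]
        have := sq_nonneg e
        linarith
      have hn := vid_num hB h k l x
      have h2 : |poeh g k l e x| ≤ 3 * B * (1 / nr (x k - x l)) := by
        rw [vid_poeh, abs_mul, abs_neg, abs_of_pos (pow_pos hw 3)]
        calc |∑ m, (pd m g (x k) - pd m g (x l)) * (x k m - x l m)| * poew k l e x ^ 3
            ≤ (3 * B * nr (x k - x l) ^ 2) * (1 / nr (x k - x l)) ^ 3 :=
              mul_le_mul hn (pow_le_pow_left₀ hw.le hw1 3) (by positivity) (by positivity)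
          _ = _ := by field_simp
      rw [Real.norm_eq_abs, abs_mul, abs_of_nonneg (sq_nonneg (v x))]
      calc |poeh g k l e x| * v x ^ 2 ≤ 3 * B * (1 / nr (x k - x l)) * v x ^ 2 :=
            mul_le_mul_of_nonneg_right h2 (sq_nonneg _)
        _ = _ := by ring
    · filter_upwards [poe_null hkl.ne] with x hx
      have hpos : 0 < nr (x k - x l) := lt_of_le_of_ne (poe_nr_nonneg _) (Ne.symm hx)
      refine Tendsto.mul ?_ tendsto_const_nhds
      have h3 : Tendsto (fun m : ℕ => poew k l (1 / ((m : ℝ) + 1)) x) atTop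
          (𝓝 (nr (x k - x l))⁻¹) := by
        unfold poew
        refine Tendsto.inv₀ ?_ hx
        have h1 : Tendsto (fun m : ℕ => nr (x k - x l) ^ 2 + (1 / ((m : ℝ) + 1)) ^ 2) atTop
            (𝓝 (nr (x k - x l) ^ 2 + 0 ^ 2)) :=
          tendsto_const_nhds.add (tendsto_one_div_add_atTop_nhds_zero_nat.pow 2)
        have h2 := h1.sqrt
        rw [show nr (x k - x l) ^ 2 + (0 : ℝ) ^ 2 = nr (x k - x l) ^ 2 by ring,
          Real.sqrt_sq hpos.le] at h2
        refine h2.congr fun m => ?_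
        rw [poe_q_eq]
      have h4 := (h3.pow 3).const_mul
        (-(∑ m, (pd m g (x k) - pd m g (x l)) * (x k m - x l m)))
      have h5 : -(∑ m, (pd m g (x k) - pd m g (x l)) * (x k m - x l m)) *
          (nr (x k - x l))⁻¹ ^ 3 = -vidS g k l x := by
        unfold vidS
        rw [inv_pow, div_eq_mul_inv]
        ring
      rw [h5] at h4
      refine h4.congr fun m => ?_
      rw [vid_poeh]
  have key : ∀ m : ℕ, ∫ x, poew k l (1 / ((m : ℝ) + 1)) x * (Pg g v x * v x) =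
      -(1 / 2) * ∫ x, poeh g k l (1 / ((m : ℝ) + 1)) x * v x ^ 2 := by
    intro m
    have he : (0 : ℝ) < 1 / ((m : ℝ) + 1) := by positivity
    generalize 1 / ((m : ℝ) + 1) = e at he
    have j := poe_id2 hPAN hg hv hvc hp rfl (poew_cd k l he)
    have a1 : ∫ x, poew k l e x * (Pg g v x * v x) = ∫ x, poew k l e x * Pg g v x * v x := by
      congr 1
      funext x
      ring
    have a2 : ∫ x, poeD g (poew k l e) x * v x ^ 2 = ∫ x, poeh g k l e x * v x ^ 2 := by
      congr 1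
      funext x
      rw [poeD_w k l he x]
    rw [a2] at j
    rw [a1]
    linarith
  have t3 := (t2.const_mul (-(1 / 2))).congr fun m => (key m).symm
  have := tendsto_nhds_unique t1 t3
  rw [this]
  have e2 : ∫ x, -vidS g k l x * v x ^ 2 = -∫ x, vidS g k l x * v x ^ 2 := by
    rw [← integral_neg]
    congr 1
    funext x
    ring
  rw [e2]
  ring

/-- the nucleus term -/
noncomputable def vidN (g : R3 → ℝ) (a y : R3) : ℝ :=
  (∑ m, pd m g y * (y m - a m)) / nr (y - a) ^ 3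

theorem vid_pdM {s : ℝ} (hs : 0 < s) (a : R3) (i : Fin 3) (y : R3) :
    pd i (pinM_U a s) y = pin_A s (pin_q s (y - a)) * (2 * (y i - a i)) := by
  have h1 : pd i (pinM_U a s) y = pd i (pin_U s) (y - a) := by
    have e : pinM_U a s = fun z => pin_U s (z - a) := rfl
    unfold pd
    rw [e, fderiv_comp_sub]
  rw [h1, pin_pdU hs]
  rfl

theorem vid_nl (g : R3 → ℝ) (a : R3) {y : R3} (hy : y - a ≠ 0) :
    Tendsto (fun j : ℕ => pin_D g (pinM_U a (1 / ((j : ℝ) + 1))) y) atTop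
      (𝓝 (-vidN g a y)) := by
  have ha := pin_nrpos hy
  have h1 : Tendsto (fun m : ℕ => nr (y - a) ^ 2 + (1 / ((m : ℝ) + 1)) ^ 2) atTop
      (𝓝 (nr (y - a) ^ 2 + 0 ^ 2)) :=
    tendsto_const_nhds.add (tendsto_one_div_add_atTop_nhds_zero_nat.pow 2)
  have h2 := h1.sqrt
  rw [show nr (y - a) ^ 2 + (0 : ℝ) ^ 2 = nr (y - a) ^ 2 by ring, Real.sqrt_sq ha.le] at h2
  have h3 : Tendsto (fun m : ℕ => pin_f (pin_q (1 / ((m : ℝ) + 1)) (y - a))) atTop
      (𝓝 (nr (y - a))⁻¹) := by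
    refine (h2.inv₀ ha.ne').congr fun m => ?_
    unfold pin_f
    rw [pin_qn]
  have h4 : Tendsto (fun m : ℕ => pin_A (1 / ((m : ℝ) + 1))
      (pin_q (1 / ((m : ℝ) + 1)) (y - a))) atTop
      (𝓝 (-(1 / 2) * (nr (y - a))⁻¹ ^ 3 - 3 / 4 * 0 ^ 2 * (nr (y - a))⁻¹ ^ 5)) := by
    unfold pin_A
    exact ((h3.pow 3).const_mul _).sub
      (((tendsto_one_div_add_atTop_nhds_zero_nat.pow 2).const_mul (3 / 4)).mul (h3.pow 5))
  have h5 : Tendsto (fun m : ℕ => ∑ i, pd i g y * (pin_A (1 / ((m : ℝ) + 1))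
      (pin_q (1 / ((m : ℝ) + 1)) (y - a)) * (2 * (y i - a i)))) atTop
      (𝓝 (∑ i, pd i g y * ((-(1 / 2) * (nr (y - a))⁻¹ ^ 3 -
        3 / 4 * 0 ^ 2 * (nr (y - a))⁻¹ ^ 5) * (2 * (y i - a i))))) :=
    tendsto_finsetSum _ fun i _ => (h4.mul_const _).const_mul _
  have h6 : (∑ i, pd i g y * ((-(1 / 2) * (nr (y - a))⁻¹ ^ 3 -
        3 / 4 * 0 ^ 2 * (nr (y - a))⁻¹ ^ 5) * (2 * (y i - a i)))) = -vidN g a y := by
    unfold vidN
    have e7 : (∑ m, pd m g y * (y m - a m)) / nr (y - a) ^ 3 =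
        (∑ m, pd m g y * (y m - a m)) * (nr (y - a))⁻¹ ^ 3 := by
      rw [inv_pow, div_eq_mul_inv]
    rw [e7, Finset.sum_mul, ← Finset.sum_neg_distrib]
    refine Finset.sum_congr rfl fun i _ => ?_
    ring
  rw [h6] at h5
  refine h5.congr fun m => ?_
  have hs : (0 : ℝ) < 1 / ((m : ℝ) + 1) := by positivity
  unfold pin_D
  refine Finset.sum_congr rfl fun i _ => ?_
  rw [vid_pdM hs]

theorem vid_ptb (g : R3 → ℝ) (a : R3) {s : ℝ} (hs : 0 < s) {y : R3} (hy : y - a ≠ 0) :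
    |pin_D g (pinM_U a s) y| ≤ Real.sqrt (grd g y) / nr (y - a) ^ 2 := by
  have ha := pin_nrpos hy
  have h1 : ∀ i, pd i (pinM_U a s) y = pd i (pin_U s) (y - a) := by
    intro i
    have e : pinM_U a s = fun z => pin_U s (z - a) := rfl
    unfold pd
    rw [e, fderiv_comp_sub]
  have h2 : (pin_D g (pinM_U a s) y) ^ 2 ≤ grd g y * (1 / nr (y - a) ^ 2) ^ 2 := by
    unfold pin_D grd
    simp only [h1]
    calc _ ≤ (∑ i, pd i g y ^ 2) * ∑ i, pd i (pin_U s) (y - a) ^ 2 :=
          Finset.sum_mul_sq_le_sq_mul_sq _ _ _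
      _ ≤ _ := mul_le_mul_of_nonneg_left (attL_grad hs hy)
          (Finset.sum_nonneg fun i _ => sq_nonneg _)
  have h3 : |pin_D g (pinM_U a s) y| ≤ Real.sqrt (grd g y * (1 / nr (y - a) ^ 2) ^ 2) :=
    Real.abs_le_sqrt h2
  have h4 : Real.sqrt (grd g y * (1 / nr (y - a) ^ 2) ^ 2) =
      Real.sqrt (grd g y) / nr (y - a) ^ 2 := by
    have hg0 : 0 ≤ grd g y := Finset.sum_nonneg fun i _ => sq_nonneg _
    rw [Real.sqrt_mul hg0, Real.sqrt_sq (by positivity)]
    ring
  rwa [h4] at h3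

theorem vid_Nb (g : R3 → ℝ) (a : R3) {y : R3} (hy : y - a ≠ 0) :
    |vidN g a y| ≤ Real.sqrt (grd g y) / nr (y - a) ^ 2 := by
  have h := (vid_nl g a hy).abs
  rw [abs_neg] at h
  exact le_of_tendsto' h fun j => vid_ptb g a (by positivity) hy

theorem vid_Nm {n : ℕ} {g : R3 → ℝ} (hg : ContDiff ℝ (⊤ : ℕ∞) g) (a : R3) (k : Fin n) :
    Measurable (fun x : Cf n => vidN g a (x k)) := by
  have h1 : Continuous (fun x : Cf n => ∑ m, pd m g (x k) * (x k m - a m)) := by
    refine continuous_finsetSum _ fun m _ => ?_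
    exact ((poe_pdk_cd hg m k).continuous).mul ((poe_cd k m).continuous.sub continuous_const)
  have h2 : Continuous (fun x : Cf n => nr (x k - a)) :=
    poe_nr_cont.comp ((continuous_apply k).sub continuous_const)
  exact h1.measurable.div (h2.pow 3).measurable

theorem vid_nint {n : ℕ} (h3 : ST_HA3) {g : R3 → ℝ} (hg : ContDiff ℝ (⊤ : ℕ∞) g)
    (hc : HasCompactSupport g) (a : R3) {v : Cf n → ℝ} (hv : ContDiff ℝ (⊤ : ℕ∞) v)
    (hvc : HasCompactSupport v) :
    Integrable (fun x : Cf n => (∑ k, vidN g a (x k)) * v x ^ 2) := by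
  refine (attL_int h3 a hg hc hv hvc).mono' ?_ ?_
  · exact ((Finset.measurable_sum _ fun k _ => vid_Nm hg a k).aestronglyMeasurable).mul
      (hv.continuous.pow 2).aestronglyMeasurable
  · filter_upwards [pinM_ae n a] with x hx
    rw [Real.norm_eq_abs, abs_mul, abs_of_nonneg (sq_nonneg (v x))]
    refine mul_le_mul_of_nonneg_right ?_ (sq_nonneg _)
    exact (Finset.abs_sum_le_sum_abs _ _).trans
      (Finset.sum_le_sum fun k _ => vid_Nb g a (hx k))

theorem vid_nuc {n : ℕ} (h1 : ST_IBP) (h3 : ST_HA3) (h5 : ST_INTM) {g : R3 → ℝ}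
    (hg : ContDiff ℝ (⊤ : ℕ∞) g) (hc : HasCompactSupport g) (a : R3) {v : Cf n → ℝ}
    (hv : ContDiff ℝ (⊤ : ℕ∞) v) (hvc : HasCompactSupport v) :
    ∫ x, (∑ k, 1 / nr (x k - a)) * (Pg g v x * v x) =
      1 / 2 * ∫ x : Cf n, (∑ k, vidN g a (x k)) * v x ^ 2 := by
  have hPAN : ST_PAN := Pool.Agent.Helper2.PW.st_PAN h1
  have hSTB : ST_STB := Pool.Agent.Helper2.PW.st_STB
  obtain ⟨hp, hpc⟩ := poe_sm hSTB hg hv hvc
  have t1 := pinM_lim h5 a hp hpc hv hvc
  have t2 : Tendsto (fun j : ℕ => ∫ x, pin_S (pin_D g (pinM_U a (1 / ((j : ℝ) + 1)))) x *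
      v x ^ 2) atTop (𝓝 (∫ x : Cf n, (∑ k, -vidN g a (x k)) * v x ^ 2)) := by
    refine tendsto_integral_of_dominated_convergence
      (fun x : Cf n => (∑ k, Real.sqrt (grd g (x k)) / nr (x k - a) ^ 2) * v x ^ 2)
      (fun j => ?_) (attL_int h3 a hg hc hv hvc) (fun j => ?_) ?_
    · have hs : (0 : ℝ) < 1 / ((j : ℝ) + 1) := by positivity
      exact (((pin_smS (n := n) (pin_smD hg (pinM_smU a hs))).continuous).mul
        (hv.continuous.pow 2)).aestronglyMeasurable
    · filter_upwards [pinM_ae n a] with x hx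
      have hs : (0 : ℝ) < 1 / ((j : ℝ) + 1) := by positivity
      rw [Real.norm_eq_abs, abs_mul, abs_of_nonneg (sq_nonneg (v x))]
      refine mul_le_mul_of_nonneg_right ?_ (sq_nonneg _)
      unfold pin_S
      exact (Finset.abs_sum_le_sum_abs _ _).trans
        (Finset.sum_le_sum fun k _ => vid_ptb g a hs (hx k))
    · filter_upwards [pinM_ae n a] with x hx
      refine Tendsto.mul_const _ ?_
      unfold pin_S
      exact tendsto_finsetSum _ fun k _ => vid_nl g a (hx k)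
  have key : ∀ j : ℕ, ∫ x, pin_S (pinM_U a (1 / ((j : ℝ) + 1))) x * (Pg g v x * v x) =
      -(1 / 2) * ∫ x, pin_S (pin_D g (pinM_U a (1 / ((j : ℝ) + 1)))) x * v x ^ 2 := by
    intro j
    have hs : (0 : ℝ) < 1 / ((j : ℝ) + 1) := by positivity
    exact attL_id hPAN hSTB hg (pinM_smU a hs) hv hvc
  have t3 := (t2.const_mul (-(1 / 2))).congr fun m => (key m).symm
  have := tendsto_nhds_unique t1 t3
  rw [this]
  have e2 : ∫ x : Cf n, (∑ k, -vidN g a (x k)) * v x ^ 2 =
      -∫ x : Cf n, (∑ k, vidN g a (x k)) * v x ^ 2 := by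
    rw [← integral_neg]
    congr 1
    funext x
    rw [Finset.sum_neg_distrib]
    ring
  rw [e2]
  ring

theorem vid_one {n M : ℕ} (h1 : ST_IBP) (h3 : ST_HA3) (h4 : ST_INT) (h5 : ST_INTM)
    (X : Fin M → R3) (Z : Fin M → ℝ) {g : R3 → ℝ} (hg : ContDiff ℝ (⊤ : ℕ∞) g)
    (hc : HasCompactSupport g) {v : Cf n → ℝ} (hv : ContDiff ℝ (⊤ : ℕ∞) v)
    (hvc : HasCompactSupport v) :
    Integrable (fun x : Cf n => Vir X Z g x * v x ^ 2) ∧
    ∫ x, (rep x - ∑ k, pot X Z (x k)) * (Pg g v x * v x) = ∫ x, Vir X Z g x * v x ^ 2 := by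
  obtain ⟨B, hB, hL⟩ := vid_bd hg hc
  obtain ⟨hp, hpc⟩ := poe_sm Pool.Agent.Helper2.PW.st_STB hg hv hvc
  have eV : ∀ x : Cf n, Vir X Z g x * v x ^ 2 =
      1 / 2 * (∑ k, ∑ l, if k < l then vidS g k l x * v x ^ 2 else 0) -
      1 / 2 * ∑ j, Z j * ((∑ k, vidN g (X j) (x k)) * v x ^ 2) := by
    intro x
    have e1 : Vir X Z g x = 1 / 2 * (∑ k, ∑ l, if k < l then vidS g k l x else 0) -
        1 / 2 * ∑ k, ∑ j, Z j * vidN g (X j) (x k) := rfl
    rw [e1, sub_mul]
    congr 1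
    · rw [mul_assoc, Finset.sum_mul]
      congr 1
      refine Finset.sum_congr rfl fun k _ => ?_
      rw [Finset.sum_mul]
      refine Finset.sum_congr rfl fun l _ => ?_
      split_ifs
      · rfl
      · exact zero_mul _
    · rw [mul_assoc, Finset.sum_comm, Finset.sum_mul]
      congr 1
      refine Finset.sum_congr rfl fun j _ => ?_
      rw [← Finset.mul_sum]
      ring
  have IS : ∀ k l : Fin n, Integrable (fun x : Cf n =>
      if k < l then vidS g k l x * v x ^ 2 else 0) := by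
    intro k l
    split_ifs with hkl
    · exact vid_pint h4 hg hB hL hkl hv hvc
    · exact integrable_zero _ _ _
  have IN : ∀ j : Fin M, Integrable (fun x : Cf n =>
      Z j * ((∑ k, vidN g (X j) (x k)) * v x ^ 2)) := fun j =>
    (vid_nint h3 hg hc (X j) hv hvc).const_mul _
  have I1 : Integrable (fun x : Cf n =>
      1 / 2 * (∑ k, ∑ l, if k < l then vidS g k l x * v x ^ 2 else 0)) :=
    (integrable_finsetSum _ fun k _ => integrable_finsetSum _ fun l _ => IS k l).const_mul _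
  have I2 : Integrable (fun x : Cf n =>
      1 / 2 * ∑ j, Z j * ((∑ k, vidN g (X j) (x k)) * v x ^ 2)) :=
    (integrable_finsetSum _ fun j _ => IN j).const_mul _
  have eV' : (fun x : Cf n => Vir X Z g x * v x ^ 2) = fun x =>
      1 / 2 * (∑ k, ∑ l, if k < l then vidS g k l x * v x ^ 2 else 0) -
      1 / 2 * ∑ j, Z j * ((∑ k, vidN g (X j) (x k)) * v x ^ 2) := funext eV
  rw [eV']
  refine ⟨I1.sub I2, ?_⟩
  rw [integral_sub I1 I2, integral_const_mul, integral_const_mul,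
    integral_finsetSum _ fun k _ => integrable_finsetSum _ fun l _ => IS k l,
    integral_finsetSum _ fun j _ => IN j]
  obtain ⟨K1, K2, -, -⟩ := h5 n M X Z _ _ hp hpc hv hvc
  have c2 : Continuous (fun x => Pg g v x * v x) := hp.continuous.mul hv.continuous
  have eL : ∫ x, (rep x - ∑ k, pot X Z (x k)) * (Pg g v x * v x) =
      (∫ x, rep x * (Pg g v x * v x)) - ∫ x, (∑ k, pot X Z (x k)) * (Pg g v x * v x) := by
    rw [← integral_sub K2 K1]
    congr 1
    funext x
    ring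
  have eN : ∫ x, (∑ k, pot X Z (x k)) * (Pg g v x * v x) =
      ∑ j, Z j * (1 / 2 * ∫ x : Cf n, (∑ k, vidN g (X j) (x k)) * v x ^ 2) := by
    have a1 : ∀ x : Cf n, (∑ k, pot X Z (x k)) * (Pg g v x * v x) =
        ∑ j, Z j * ((∑ k, 1 / nr (x k - X j)) * (Pg g v x * v x)) := by
      intro x
      unfold pot
      rw [Finset.sum_comm, Finset.sum_mul]
      refine Finset.sum_congr rfl fun j _ => ?_
      have a2 : ∑ k, Z j / nr (x k - X j) = Z j * ∑ k, 1 / nr (x k - X j) := by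
        rw [Finset.mul_sum]
        refine Finset.sum_congr rfl fun k _ => ?_
        ring
      rw [a2]
      ring
    simp only [a1]
    rw [integral_finsetSum _ fun j _ => (pinM_int h5 (X j) hp hpc hv hvc).const_mul (Z j)]
    refine Finset.sum_congr rfl fun j _ => ?_
    rw [integral_const_mul, vid_nuc h1 h3 h5 hg hc (X j) hv hvc]
  rw [eL, eN, poe_sum c2 K2]
  congr 1
  · rw [Finset.mul_sum]
    refine Finset.sum_congr rfl fun k _ => ?_
    rw [integral_finsetSum _ fun l _ => IS k l, Finset.mul_sum]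
    refine Finset.sum_congr rfl fun l _ => ?_
    split_ifs with hkl
    · exact vid_pair h1 h4 hg hB hL hkl hv hvc
    · simp
  · rw [Finset.mul_sum]
    refine Finset.sum_congr rfl fun j _ => ?_
    rw [integral_const_mul]
    ring

theorem VID (h1 : ST_IBP) (_h2 : ST_HA2) (h3 : ST_HA3) (h4 : ST_INT) (h5 : ST_INTM) :
    ST_VID := by
  intro n M X Z g u hg hc hu
  have h := fun s => vid_one h1 h3 h4 h5 X Z hg hc (hu s).1 (hu s).2
  exact ⟨fun s => (h s).1, Finset.sum_congr rfl fun s _ => (h s).2⟩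

end Pool.Agent.Helper51.LN
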